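import Pool.Agent.H756.SB.Stm2

/-!
# The conditional law on a signed order cone has a density
-/

set_option autoImplicit false

namespace Pool.Agent.H756.SB

open MeasureTheory Set Filter Topology
open scoped ENNReal InnerProductSpace
open Pool.Agent.W695.KH (Eu)
open Pool.Agent.U959.OC

variable {ρ : ℝ → ℝ} {n : ℕ}

theorem sg_meas (u : Fin n × Bool) : Measurable fun x : Eu (Fin n) => sg (fun i => x i) u := by
  unfold sg
  split_ifs <;> fun_prop

theorem conE_meas' (S : Fin n × Bool → Fin n × Bool → Prop) : MeasurableSet (conE S) := by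
  have : conE S = ⋂ u, ⋂ v, ⋂ (_ : S u v),
      {x : Eu (Fin n) | sg (fun i => x i) u ≤ sg (fun i => x i) v} := by
    ext x; simp only [conE, mem_ofPred_eq, mem_iInter]
  rw [this]
  exact MeasurableSet.iInter fun u => MeasurableSet.iInter fun v => MeasurableSet.iInter fun _ =>
    measurableSet_le (sg_meas u) (sg_meas v)

theorem wS_meas' {h : ℝ → ℝ} (hh : Measurable h) (S : Fin n × Bool → Fin n × Bool → Prop) :
    Measurable (wS h S) := by
  unfold wS
  refine Measurable.ite (conE_meas' S) ?_ measurable_const
  exact Finset.measurable_prod _ fun i _ => hh.comp (by fun_prop)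

theorem nus_dens (h : LCD ρ) (S : Fin n × Bool → Fin n × Bool → Prop)
    (hne : iid n ρ (conE S) ≠ 0) :
    nus ρ S = volume.withDensity fun x =>
      ENNReal.ofReal ((iid n ρ (conE S)).toReal⁻¹ * wS ρ S x) := by
  classical
  have hp := iid_prob (n := n) h
  have hc := conE_meas' (n := n) S
  have hZ0 : 0 < (iid n ρ (conE S)).toReal := ENNReal.toReal_pos hne (measure_ne_top _ _)
  have hwm : Measurable (wS ρ S) := wS_meas' h.meas S
  have e1 : (iid n ρ).restrict (conE S) = volume.withDensity fun x => ENNReal.ofReal (wS ρ S x) := by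
    unfold iid
    rw [restrict_withDensity hc, ← withDensity_indicator hc]
    congr 1
    funext x
    unfold wS
    by_cases hx : x ∈ conE S
    · rw [indicator_of_mem hx, if_pos hx, ENNReal.ofReal_prod_of_nonneg fun i _ => h.nonneg _]
    · rw [indicator_of_notMem hx, if_neg hx, ENNReal.ofReal_zero]
  unfold nus ProbabilityTheory.cond
  rw [e1, ← withDensity_smul _ hwm.ennreal_ofReal]
  congr 1
  funext x
  rw [Pi.smul_apply, smul_eq_mul, ENNReal.ofReal_mul (inv_nonneg.2 hZ0.le),
    ENNReal.ofReal_inv_of_pos hZ0, ENNReal.ofReal_toReal (measure_ne_top _ _)]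

end Pool.Agent.H756.SB
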