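import Pool.Agent.H756.SB.Pt
import Pool.Agent.H756.SB.Dens
import Pool.Agent.U928.SB.CONB
import Pool.Agent.U312.SB.CONN
import Pool.Agent.U399.SB.LAT
import Pool.Agent.U741.SB.RS
import Pool.Agent.U354.SB.ADJ
import Pool.Agent.U354.SB.UPC
import Pool.Agent.U411.SB.POI
import Pool.Agent.U891.SB.CORE
import Pool.Agent.U574.SB.APX
import Pool.Agent.U260.SB.SYM
import Pool.Agent.U394.SB.FACTS
import Pool.Agent.U55.SB.ONE
import Pool.Agent.U329.SB.COV

/-!
# Project SB: assembly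

Parts by helpers 756, 928, 312, 399, 741, 354, 411, 891, 574, 260, 394, 55, 329.
-/

set_option autoImplicit false

namespace Pool.Agent.H756.SB

theorem lat : S_LAT :=
  Pool.Agent.U399.SB.t_LAT (Pool.Agent.U928.SB.t_CON t_PT) Pool.Agent.U312.SB.CONN.t_CONN

theorem poi : S_POI :=
  Pool.Agent.U411.SB.t_POI lat Pool.Agent.U741.SB.t_RS Pool.Agent.U354.SB.t_ADJ
    Pool.Agent.U354.SB.t_UPC

theorem core : S_CORE := Pool.Agent.U891.SB.t_CORE poi

theorem facts : S_FACTS := Pool.Agent.U394.SB.t_FACTS core Pool.Agent.U574.SB.t_APX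

theorem one : S_ONE := Pool.Agent.U55.SB.t_ONE

theorem cov : S_COV := Pool.Agent.U329.SB.t_COV facts Pool.Agent.U260.SB.t_SYM one

end Pool.Agent.H756.SB
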