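import Pool.Agent.H756.SB.Stm

/-!
# SB-PT: coupling, one exchange
-/

set_option autoImplicit false

namespace Pool.Agent.H756.SB

open Pool.Agent.R972.OP (WC)

variable {n N : ℕ} {S : Fin n × Bool → Fin n × Bool → Prop}

theorem mem_cfs {g : Fin n → ℕ} : g ∈ cfs N S ↔
    (∀ a, g a < 2 * N) ∧ (∀ a b, a ≠ b → g a ≠ g b ∧ g a + g b + 1 ≠ 2 * N) ∧
      ∀ u v, S u v → ps N g u < ps N g v := by
  classical
  unfold cfs
  rw [Finset.mem_filter, Fintype.mem_piFinset]
  simp only [Finset.mem_range]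

theorem rf_lt {p q x : ℕ} (hp : p < 2 * N) (hq : q < 2 * N) (hx : x < 2 * N) :
    rf N p q x < 2 * N := by
  unfold rf
  split_ifs <;> omega

/-- mirror images -/
theorem rf_mir {p q x : ℕ} (hp : p < 2 * N) (hq : q < 2 * N) (hx : x < 2 * N) :
    rf N p q (2 * N - 1 - x) = 2 * N - 1 - rf N p q x := by
  unfold rf
  split_ifs <;> omega

theorem rf_rf {p q x : ℕ} (hp : p < 2 * N) (hq : q < 2 * N) (hx : x < 2 * N) :
    rf N p q (rf N p q x) = x := by
  unfold rf
  split_ifs <;> omega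

theorem rf_inj {p q x y : ℕ} (hp : p < 2 * N) (hq : q < 2 * N) (hx : x < 2 * N) (hy : y < 2 * N)
    (h : rf N p q x = rf N p q y) : x = y := by
  have := congrArg (rf N p q) h
  rwa [rf_rf hp hq hx, rf_rf hp hq hy] at this

theorem ps_lt {g : Fin n → ℕ} (hg : ∀ a, g a < 2 * N) (u : Fin n × Bool) : ps N g u < 2 * N := by
  unfold ps
  have := hg u.1
  split_ifs <;> omega

theorem ps_mvs {p q : ℕ} (hp : p < 2 * N) (hq : q < 2 * N) {g : Fin n → ℕ}
    (hg : ∀ a, g a < 2 * N) (u : Fin n × Bool) : ps N (mvs N p q g) u = rf N p q (ps N g u) := by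
  unfold ps mvs
  split_ifs
  · rw [rf_mir hp hq (hg _)]
  · rfl

/-- conjugation -/
theorem rf_conj {k l p q x : ℕ} (hk : k < 2 * N) (hl : l < 2 * N) (hp : p < 2 * N)
    (hq : q < 2 * N) (hpq : p ≠ q) (hx : x < 2 * N) :
    rf N k l (rf N p q x) = rf N (rf N k l p) (rf N k l q) (rf N k l x) := by
  have hinj : ∀ y z, y < 2 * N → z < 2 * N → y ≠ z → rf N k l y ≠ rf N k l z :=
    fun y z hy hz hne h => hne (rf_inj hk hl hy hz h)
  have hmir : ∀ y, y < 2 * N → rf N k l (2 * N - 1 - y) = 2 * N - 1 - rf N k l y :=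
    fun y hy => rf_mir hk hl hy
  have def1 : ∀ p q x, rf N p q x = if x = p then q else if x = q then p else
    if x = 2 * N - 1 - p then 2 * N - 1 - q else if x = 2 * N - 1 - q then 2 * N - 1 - p else x :=
    fun _ _ _ => rfl
  rw [def1 p q x, def1 (rf N k l p) (rf N k l q) (rf N k l x)]
  by_cases h1 : x = p
  · subst h1
    rw [if_pos rfl, if_pos rfl]
  by_cases h2 : x = q
  · subst h2
    rw [if_neg h1, if_pos rfl, if_neg (hinj _ _ hx hp h1), if_pos rfl]
  by_cases h3 : x = 2 * N - 1 - p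
  · rw [if_neg h1, if_neg h2, if_pos h3, if_neg (hinj _ _ hx hp h1), if_neg (hinj _ _ hx hq h2),
      if_pos (by rw [h3, hmir p hp]), hmir q hq]
  by_cases h4 : x = 2 * N - 1 - q
  · have h5 : rf N k l x ≠ 2 * N - 1 - rf N k l p := by
      rw [← hmir p hp]
      exact hinj _ _ hx (by omega) h3
    rw [if_neg h1, if_neg h2, if_neg h3, if_pos h4, if_neg (hinj _ _ hx hp h1),
      if_neg (hinj _ _ hx hq h2), if_neg h5, if_pos (by rw [h4, hmir q hq]), hmir p hp]
  · have h5 : rf N k l x ≠ 2 * N - 1 - rf N k l p := by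
      rw [← hmir p hp]
      exact hinj _ _ hx (by omega) h3
    have h6 : rf N k l x ≠ 2 * N - 1 - rf N k l q := by
      rw [← hmir q hq]
      exact hinj _ _ hx (by omega) h4
    rw [if_neg h1, if_neg h2, if_neg h3, if_neg h4, if_neg (hinj _ _ hx hp h1),
      if_neg (hinj _ _ hx hq h2), if_neg h5, if_neg h6]

theorem mvs_conj {k l p q : ℕ} (hk : k < 2 * N) (hl : l < 2 * N) (hp : p < 2 * N)
    (hq : q < 2 * N) (hpq : p ≠ q) {g : Fin n → ℕ} (hg : ∀ a, g a < 2 * N) :
    mvs N k l (mvs N p q g) = mvs N (rf N k l p) (rf N k l q) (mvs N k l g) := by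
  funext a
  exact rf_conj hk hl hp hq hpq (hg a)

theorem mvs_mvs {p q : ℕ} (hp : p < 2 * N) (hq : q < 2 * N) {g : Fin n → ℕ}
    (hg : ∀ a, g a < 2 * N) : mvs N p q (mvs N p q g) = g := by
  funext a
  exact rf_rf hp hq (hg a)

/-- exchange of the mirror images -/
theorem rf_swap_mir {p q x : ℕ} (hp : p < 2 * N) (hq : q < 2 * N) (hx : x < 2 * N) :
    rf N (2 * N - 1 - q) (2 * N - 1 - p) x = rf N p q x := by
  unfold rf
  split_ifs <;> omega

theorem mvs_mir {p q : ℕ} (hp : p < 2 * N) (hq : q < 2 * N) {g : Fin n → ℕ}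
    (hg : ∀ a, g a < 2 * N) : mvs N (2 * N - 1 - q) (2 * N - 1 - p) g = mvs N p q g := by
  funext a
  exact rf_swap_mir hp hq (hg a)

/-- opposite label -/
def ng (u : Fin n × Bool) : Fin n × Bool := (u.1, !u.2)

theorem ps_ng {g : Fin n → ℕ} (hg : ∀ a, g a < 2 * N) (u : Fin n × Bool) :
    ps N g (ng u) = 2 * N - 1 - ps N g u := by
  obtain ⟨a, b⟩ := u
  have := hg a
  cases b
  · simp [ps, ng]
  · simp [ps, ng]
    omega

theorem ps_inj {g : Fin n → ℕ} (hg : g ∈ cfs N S) {u v : Fin n × Bool}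
    (h : ps N g u = ps N g v) : u = v := by
  obtain ⟨h1, h2, -⟩ := mem_cfs.1 hg
  obtain ⟨a, s⟩ := u
  obtain ⟨b, t⟩ := v
  have ha := h1 a
  have hb := h1 b
  unfold ps at h
  by_cases hab : a = b
  · subst hab
    cases s <;> cases t <;> simp at h ⊢ <;> omega
  · have h3 := h2 a b hab
    exfalso
    cases s <;> cases t <;> simp at h <;> omega

/-- admissibility of the exchange of `k` and `k + 1` -/
theorem mvs_mem_iff {g : Fin n → ℕ} (hg : g ∈ cfs N S) {k : ℕ} (hk : k + 1 < 2 * N) :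
    mvs N k (k + 1) g ∈ cfs N S ↔ ∀ u v, S u v →
      ¬ (ps N g u = k ∧ ps N g v = k + 1) ∧
      ¬ (ps N g u = 2 * N - 2 - k ∧ ps N g v = 2 * N - 1 - k) := by
  obtain ⟨h1, h2, h3⟩ := mem_cfs.1 hg
  have hmem : mvs N k (k + 1) g ∈ cfs N S ↔
      ∀ u v, S u v → rf N k (k + 1) (ps N g u) < rf N k (k + 1) (ps N g v) := by
    rw [mem_cfs]
    constructor
    · rintro ⟨-, -, h⟩ u v huv
      have := h u v huv
      rwa [ps_mvs (by omega) hk h1, ps_mvs (by omega) hk h1] at this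
    · intro h
      refine ⟨fun a => rf_lt (by omega) hk (h1 a), fun a b hab => ?_, fun u v huv => ?_⟩
      · obtain ⟨h4, h5⟩ := h2 a b hab
        refine ⟨fun h6 => h4 (rf_inj (by omega) hk (h1 a) (h1 b) h6), fun h6 => ?_⟩
        have h7 := rf_mir (N := N) (p := k) (q := k + 1) (by omega) hk (h1 b)
        have h8 := rf_lt (N := N) (p := k) (q := k + 1) (by omega) hk (h1 b)
        have hb := h1 b
        have h9 : rf N k (k + 1) (g a) = rf N k (k + 1) (2 * N - 1 - g b) := by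
          rw [h7]
          have : rf N k (k + 1) (g a) + rf N k (k + 1) (g b) + 1 = 2 * N := h6
          omega
        have h10 := rf_inj (N := N) (p := k) (q := k + 1) (by omega) hk (h1 a) (by omega) h9
        omega
      · rw [ps_mvs (by omega) hk h1, ps_mvs (by omega) hk h1]
        exact h u v huv
  rw [hmem]
  refine forall_congr' fun u => forall_congr' fun v => forall_congr' fun huv => ?_
  have e1 := h3 u v huv
  have e2 := ps_lt h1 u
  have e3 := ps_lt h1 v
  obtain ⟨x, hx⟩ : ∃ x, x = ps N g u := ⟨_, rfl⟩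
  obtain ⟨y, hy⟩ : ∃ y, y = ps N g v := ⟨_, rfl⟩
  rw [← hx, ← hy] at e1 ⊢
  rw [← hx] at e2
  rw [← hy] at e3
  unfold rf
  constructor
  · intro h
    split_ifs at h <;> omega
  · intro h
    split_ifs <;> omega

/-- `de` with integer values -/
def dz (i j k : ℕ) : ℤ :=
  (if k + 1 = i then 1 else 0) + (if k = j then 1 else 0) - (if k = i then 1 else 0) -
    (if k + 1 = j then 1 else 0)

/-- total coefficient -/
def dl (N i j k : ℕ) : ℤ := dz i j k + (if k + 1 = N then 0 else dz i j (2 * N - 2 - k))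

theorem de_cast (i j k : ℕ) : de i j k = (dz i j k : ℝ) := by
  unfold de dz
  push_cast
  rfl

theorem rf_spec (N p q x : ℕ) : (x = p ∧ rf N p q x = q) ∨ (x ≠ p ∧ x = q ∧ rf N p q x = p) ∨
    (x ≠ p ∧ x ≠ q ∧ x = 2 * N - 1 - p ∧ rf N p q x = 2 * N - 1 - q) ∨
    (x ≠ p ∧ x ≠ q ∧ x ≠ 2 * N - 1 - p ∧ x = 2 * N - 1 - q ∧ rf N p q x = 2 * N - 1 - p) ∨
    (x ≠ p ∧ x ≠ q ∧ x ≠ 2 * N - 1 - p ∧ x ≠ 2 * N - 1 - q ∧ rf N p q x = x) := by
  unfold rf
  split_ifs <;> simp_all

set_option maxHeartbeats 4000000 in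
/-- an exchange which is not admissible in one of the two placements -/
theorem key1 {N k i j x : ℕ} (hk : k < N) (hij : i < j) (hj : j < 2 * N)
    (hx : x = k ∨ x = 2 * N - 2 - k) (hlt : rf N i j x < rf N i j (x + 1)) :
    1 ≤ dl N i j k ∨ (0 ≤ dl N i j k ∧ ((rf N i j x = k ∧ rf N i j (x + 1) = k + 1) ∨
      (rf N i j x = 2 * N - 2 - k ∧ rf N i j (x + 1) = 2 * N - 1 - k))) := by
  have s1 := rf_spec N i j x
  have s2 := rf_spec N i j (x + 1)
  obtain ⟨y, hy⟩ : ∃ y, y = rf N i j x := ⟨_, rfl⟩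
  obtain ⟨z, hz⟩ : ∃ z, z = rf N i j (x + 1) := ⟨_, rfl⟩
  rw [← hy] at s1 hlt ⊢
  rw [← hz] at s2 hlt ⊢
  clear hy hz
  unfold dl dz at *
  rcases hx with hx | hx <;> rcases s1 with s1 | s1 | s1 | s1 | s1 <;>
    rcases s2 with s2 | s2 | s2 | s2 | s2 <;> first | (exfalso; omega) | omega

/-- integer version of the change of `W` -/
def dx (N k x : ℕ) : ℤ := (if x = k then 1 else 0) - (if x = k + 1 then 1 else 0) +
  (if k + 1 = N then 0 else (if x = 2 * N - 2 - k then 1 else 0) -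
    (if x = 2 * N - 1 - k then 1 else 0))

theorem dl_dx {N i j k : ℕ} (hk : k < N) : dl N i j k = dx N k j - dx N k i := by
  unfold dl dz dx
  omega

theorem W_rf {W c : ℕ → ℝ} (h : SC N W c) {k x : ℕ} (hk : k < N) (hx : x < 2 * N) :
    W (rf N k (k + 1) x) - W x = (W (k + 1) - W k) * (dx N k x : ℝ) := by
  have e1 := h.ws k (by omega)
  have e2 := h.ws (k + 1) (by omega)
  have e3 : 2 * N - 1 - (k + 1) = 2 * N - 2 - k := by omega
  rw [e3] at e2
  rcases rf_spec N k (k + 1) x with ⟨h1, h2⟩ | ⟨h0, h1, h2⟩ | ⟨h0, h00, h1, h2⟩ |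
    ⟨h0, h00, h01, h1, h2⟩ | ⟨h0, h00, h01, h02, h2⟩
  · have : dx N k x = 1 := by unfold dx; omega
    rw [h2, this, h1]
    push_cast
    ring
  · have : dx N k x = -1 := by unfold dx; omega
    rw [h2, this, h1]
    push_cast
    ring
  · have : dx N k x = -1 := by unfold dx; omega
    rw [h2, this, h1, e1, e3, e2]
    push_cast
    ring
  · have : dx N k x = 1 := by unfold dx; omega
    rw [h2, this, h1, e1, e3, e2]
    push_cast
    ring
  · have : dx N k x = 0 := by unfold dx; omega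
    rw [h2, this]
    push_cast
    ring

theorem key2 {N k i j : ℕ} (hk : k < N) (hij : i < j) (hj : j < 2 * N)
    (hne : ¬ (i = k ∧ j = k + 1)) (hne' : ¬ (i = 2 * N - 2 - k ∧ j = 2 * N - 1 - k)) :
    rf N k (k + 1) i < rf N k (k + 1) j := by
  rcases rf_spec N k (k + 1) i with h | h | h | h | h <;>
    rcases rf_spec N k (k + 1) j with h' | h' | h' | h' | h' <;> omega

/-- nonadmissibility of the exchange in `s` -/
theorem key3 {s : Fin n → ℕ} (hs : s ∈ cfs N S) {i j k : ℕ} (hk : k < N) (hij : i < j)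
    (hj : j < 2 * N) (ht : mvs N i j s ∈ cfs N S) (hna : mvs N k (k + 1) s ∉ cfs N S) :
    1 ≤ dl N i j k ∨ (0 ≤ dl N i j k ∧ mvs N k (k + 1) (mvs N i j s) ∉ cfs N S) := by
  have hs1 := (mem_cfs.1 hs).1
  have ht3 := (mem_cfs.1 ht).2.2
  rw [mvs_mem_iff hs (by omega)] at hna
  push Not at hna
  obtain ⟨u, v, huv, hh⟩ := hna
  obtain ⟨x, hx, hux, hvx⟩ : ∃ x, (x = k ∨ x = 2 * N - 2 - k) ∧ ps N s u = x ∧ ps N s v = x + 1 := by
    by_cases h1 : ps N s u = k ∧ ps N s v = k + 1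
    · exact ⟨k, Or.inl rfl, h1.1, h1.2⟩
    · obtain ⟨h2, h3⟩ := hh (fun h4 => fun h5 => h1 ⟨h4, h5⟩)
      exact ⟨2 * N - 2 - k, Or.inr rfl, h2, by rw [h3]; omega⟩
  have h4 := ht3 u v huv
  rw [ps_mvs (by omega) hj hs1, ps_mvs (by omega) hj hs1, hux, hvx] at h4
  rcases key1 hk hij hj hx h4 with h5 | ⟨h5, h6⟩
  · exact Or.inl h5
  · refine Or.inr ⟨h5, ?_⟩
    rw [mvs_mem_iff ht (by omega)]
    intro h7
    obtain ⟨h8, h9⟩ := h7 u v huv
    rw [ps_mvs (by omega) hj hs1, ps_mvs (by omega) hj hs1, hux, hvx] at h8 h9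
    rcases h6 with h6 | h6
    · exact h8 h6
    · exact h9 h6

theorem t_PT : S_PT := by
  intro n N S W c F M hSC hM hF s hs i j hij hjN ht hD k hk
  have hs1 := (mem_cfs.1 hs).1
  have ht1 := (mem_cfs.1 ht).1
  have hi : i < 2 * N := by omega
  have hk2 : k + 1 < 2 * N := by omega
  have hΔ := hSC.wc.mono k hk2
  have hck := hSC.wc.nonneg k hk2
  obtain ⟨Δ, hΔd⟩ : ∃ Δ, Δ = W (k + 1) - W k := ⟨_, rfl⟩
  have hΔ0 : 0 < Δ := by rw [hΔd]; linarith
  have hcoef : (de i j k + (if k + 1 = N then 0 else de i j (2 * N - 2 - k))) = (dl N i j k : ℝ) := by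
    unfold dl
    rw [de_cast, de_cast]
    push_cast
    rfl
  rw [hcoef, ← hΔd]
  have hMc : 0 ≤ M * (c k * Δ) := mul_nonneg hM (mul_nonneg hck hΔ0.le)
  unfold tts
  by_cases hex : (i = k ∧ j = k + 1) ∨ (i = 2 * N - 2 - k ∧ j = 2 * N - 1 - k)
  · have hsame : ∀ g : Fin n → ℕ, (∀ a, g a < 2 * N) → mvs N k (k + 1) g = mvs N i j g := by
      intro g hg
      rcases hex with ⟨h1, h2⟩ | ⟨h1, h2⟩
      · rw [h1, h2]
      · have := mvs_mir (N := N) (p := k) (q := k + 1) (by omega) hk2 hg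
        have e : 2 * N - 1 - (k + 1) = 2 * N - 2 - k := by omega
        rw [← this, h1, h2, e]
    have hW : W j - W i = Δ := by
      rcases hex with ⟨h1, h2⟩ | ⟨h1, h2⟩
      · rw [h1, h2, hΔd]
      · have e1 := hSC.ws k (by omega)
        have e2 := hSC.ws (k + 1) (by omega)
        have e3 : 2 * N - 1 - (k + 1) = 2 * N - 2 - k := by omega
        rw [e3] at e2
        rw [h1, h2, e1, e2, hΔd]
        ring
    have hdl : dl N i j k = -2 := by
      unfold dl dz
      omega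
    rw [hsame _ ht1, hsame _ hs1, mvs_mvs hi hjN hs1, if_pos hs, if_pos ht, hdl]
    have e : c k * (F (mvs N i j s) - F s) = c k * (M * Δ) := by rw [hD, hW]
    have e' : c k * (F s - F (mvs N i j s)) = -(c k * (M * Δ)) := by rw [← e]; ring
    rw [e, e']
    push_cast
    linarith
  · have hne : ¬ (i = k ∧ j = k + 1) := fun h => hex (Or.inl h)
    have hne' : ¬ (i = 2 * N - 2 - k ∧ j = 2 * N - 1 - k) := fun h => hex (Or.inr h)
    have hlt := key2 hk hij hjN hne hne'
    have hq := rf_lt (N := N) (p := k) (q := k + 1) (by omega) hk2 hjN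
    have hconj := mvs_conj (N := N) (k := k) (l := k + 1) (by omega) hk2 hi hjN (by omega) hs1
    have hWW : (W (rf N k (k + 1) j) - W (rf N k (k + 1) i)) - (W j - W i) =
        Δ * (dl N i j k : ℝ) := by
      have h1 := W_rf hSC hk hjN
      have h2 := W_rf hSC hk hi
      rw [← hΔd] at h1 h2
      rw [dl_dx hk]
      push_cast
      linarith
    have one_t : mvs N k (k + 1) (mvs N i j s) ∈ cfs N S →
        c k * (F (mvs N k (k + 1) (mvs N i j s)) - F (mvs N i j s)) ≤ M * (c k * Δ) := by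
      intro h
      have h4 := (abs_le.mp (hF _ ht k (k + 1) (Nat.lt_succ_self k) hk2 h)).2
      rw [← hΔd] at h4
      have := mul_le_mul_of_nonneg_left h4 hck
      linarith
    have one_s : mvs N k (k + 1) s ∈ cfs N S →
        - (c k * (F (mvs N k (k + 1) s) - F s)) ≤ M * (c k * Δ) := by
      intro h
      have h4 := (abs_le.mp (hF _ hs k (k + 1) (Nat.lt_succ_self k) hk2 h)).1
      rw [← hΔd] at h4
      have := mul_le_mul_of_nonneg_left h4 hck
      linarith
    by_cases h1 : mvs N k (k + 1) (mvs N i j s) ∈ cfs N S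
    · by_cases h2 : mvs N k (k + 1) s ∈ cfs N S
      · rw [if_pos h1, if_pos h2]
        have h3 : mvs N (rf N k (k + 1) i) (rf N k (k + 1) j) (mvs N k (k + 1) s) ∈ cfs N S := by
          rw [← hconj]; exact h1
        have h4 := (abs_le.mp (hF _ h2 _ _ hlt hq h3)).2
        rw [← hconj] at h4
        have h5 : c k * ((F (mvs N k (k + 1) (mvs N i j s)) - F (mvs N k (k + 1) s)) -
            (F (mvs N i j s) - F s)) ≤ c k * (M * (W (rf N k (k + 1) j) - W (rf N k (k + 1) i)) -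
              M * (W j - W i)) :=
          mul_le_mul_of_nonneg_left (by rw [hD]; linarith) hck
        have h6 : c k * (M * (W (rf N k (k + 1) j) - W (rf N k (k + 1) i)) - M * (W j - W i)) =
            M * (c k * Δ) * (dl N i j k : ℝ) := by
          rw [← mul_sub, hWW]
          ring
        linarith
      · rw [if_pos h1, if_neg h2]
        have h3 := one_t h1
        rcases key3 hs hk hij hjN ht h2 with h4 | ⟨-, h5⟩
        · have h6 : (1 : ℝ) ≤ (dl N i j k : ℝ) := by exact_mod_cast h4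
          nlinarith
        · exact absurd h1 h5
    · have hk3 := key3 ht hk hij hjN (by rw [mvs_mvs hi hjN hs1]; exact hs) h1
      rw [mvs_mvs hi hjN hs1] at hk3
      by_cases h2 : mvs N k (k + 1) s ∈ cfs N S
      · rw [if_neg h1, if_pos h2]
        have h3 := one_s h2
        rcases hk3 with h4 | ⟨-, h5⟩
        · have h6 : (1 : ℝ) ≤ (dl N i j k : ℝ) := by exact_mod_cast h4
          nlinarith
        · exact absurd h2 h5
      · rw [if_neg h1, if_neg h2]
        have h6 : (0 : ℝ) ≤ (dl N i j k : ℝ) := by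
          rcases hk3 with h4 | ⟨h4, -⟩
          · exact_mod_cast (by omega : (0 : ℤ) ≤ dl N i j k)
          · exact_mod_cast h4
        have := mul_nonneg hMc h6
        linarith

end Pool.Agent.H756.SB
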