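import Pool.Agent.R972.OP.Stm

/-!
# Signed order polytopes: statements (project SB)

Signed labels `(a, false)` (the label `a`) and `(a, true)` (the label `-a`) are placed on the
positions `0, ..., 2N - 1` so that `-a` is at the mirror image `2N - 1 - k` of the position `k` of
`a`. The placement is given by `g : Fin n → ℕ`, the positions of the labels `a`. The exchange of two
positions is done together with the exchange of their mirror images. The constraints are
`ps N g u < ps N g v` if `S u v`, for an arbitrary relation `S` on the signed labels.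
-/

set_option autoImplicit false

namespace Pool.Agent.H756.SB

open MeasureTheory Set Filter Topology
open Pool.Agent.R972.OP (WC lp pd)

section

variable {n : ℕ}

/-- position of a signed label -/
def ps (N : ℕ) (g : Fin n → ℕ) (u : Fin n × Bool) : ℕ :=
  if u.2 then 2 * N - 1 - g u.1 else g u.1

/-- exchange of the positions `p` and `q` and of their mirror images -/
def rf (N p q x : ℕ) : ℕ :=
  if x = p then q else if x = q then p else
    if x = 2 * N - 1 - p then 2 * N - 1 - q else if x = 2 * N - 1 - q then 2 * N - 1 - p else x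

/-- exchange of the contents of `p` and `q` and of their mirror images -/
def mvs (N p q : ℕ) (g : Fin n → ℕ) : Fin n → ℕ := fun a => rf N p q (g a)

open Classical in
/-- admissible signed placements -/
noncomputable def cfs (N : ℕ) (S : Fin n × Bool → Fin n × Bool → Prop) : Finset (Fin n → ℕ) :=
  (Fintype.piFinset fun _ => Finset.range (2 * N)).filter
    fun g => (∀ a b, a ≠ b → g a ≠ g b ∧ g a + g b + 1 ≠ 2 * N) ∧ ∀ u v, S u v → ps N g u < ps N g v

open Classical in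
/-- contribution of the exchange of `k` and `k + 1` to the generator -/
noncomputable def tts (N : ℕ) (S : Fin n × Bool → Fin n × Bool → Prop) (c : ℕ → ℝ)
    (F : (Fin n → ℕ) → ℝ) (g : Fin n → ℕ) (k : ℕ) : ℝ :=
  if mvs N k (k + 1) g ∈ cfs N S then c k * (F (mvs N k (k + 1) g) - F g) else 0

/-- generator; `k = N - 1` is the change of the sign of the label at `N - 1` or `N` -/
noncomputable def LLs (N : ℕ) (S : Fin n × Bool → Fin n × Bool → Prop) (c : ℕ → ℝ)
    (F : (Fin n → ℕ) → ℝ) (g : Fin n → ℕ) : ℝ := ∑ k ∈ Finset.range N, tts N S c F g k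

open Classical in
/-- local energy -/
noncomputable def QQs (N : ℕ) (S : Fin n × Bool → Fin n × Bool → Prop) (c : ℕ → ℝ)
    (F : (Fin n → ℕ) → ℝ) (g : Fin n → ℕ) : ℝ := ∑ k ∈ Finset.range N,
  if mvs N k (k + 1) g ∈ cfs N S then c k * (F (mvs N k (k + 1) g) - F g) ^ 2 else 0

/-- number of ordered pairs of labels at neighbouring or mirror-neighbouring positions -/
noncomputable def adjs (N : ℕ) (g : Fin n → ℕ) : ℕ :=
  (Finset.univ.filter fun p : Fin n × Fin n => p.1 ≠ p.2 ∧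
    (g p.2 = g p.1 + 1 ∨ g p.1 + g p.2 + 2 = 2 * N ∨ g p.1 + g p.2 = 2 * N)).card

/-- coordinate of a signed label in `[0, 1]` -/
def xs (x : Fin n → ℝ) (u : Fin n × Bool) : ℝ := if u.2 then 1 - x u.1 else x u.1

/-- signed order polytope -/
def OPs (S : Fin n × Bool → Fin n × Bool → Prop) : Set (Fin n → ℝ) :=
  {x | (∀ i, 0 ≤ x i ∧ x i ≤ 1) ∧ ∀ u v, S u v → xs x u ≤ xs x v}

end

/-- coefficient of the increment of `W` at `k` -/
def de (i j k : ℕ) : ℝ :=
  (if k + 1 = i then 1 else 0) + (if k = j then 1 else 0) - (if k = i then 1 else 0) -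
    (if k + 1 = j then 1 else 0)

/-- increasing antisymmetric `W` and symmetric rates `c` with the equation of `WC` -/
structure SC (N : ℕ) (W c : ℕ → ℝ) : Prop where
  wc : WC (2 * N) W c 0
  ws : ∀ k, k < 2 * N → W (2 * N - 1 - k) = -W k
  cs : ∀ k, k + 1 < 2 * N → c (2 * N - 2 - k) = c k

/-! ### A: lattice inequality -/

/-- SB-PT: coupling, one exchange -/
def S_PT : Prop := ∀ (n N : ℕ) (S : Fin n × Bool → Fin n × Bool → Prop) (W c : ℕ → ℝ)
  (F : (Fin n → ℕ) → ℝ) (M : ℝ), SC N W c → 0 ≤ M →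
  (∀ g ∈ cfs N S, ∀ i j, i < j → j < 2 * N → mvs N i j g ∈ cfs N S →
    |F (mvs N i j g) - F g| ≤ M * (W j - W i)) →
  ∀ s ∈ cfs N S, ∀ i j, i < j → j < 2 * N → mvs N i j s ∈ cfs N S →
  F (mvs N i j s) - F s = M * (W j - W i) → ∀ k, k < N →
  tts N S c F (mvs N i j s) k - tts N S c F s k ≤ M * (c k * (W (k + 1) - W k)) *
    (de i j k + (if k + 1 = N then 0 else de i j (2 * N - 2 - k)))

/-- SB-CON: eigenvalues of nonconstant eigenfunctions are at least one -/
def S_CON : Prop := ∀ (n N : ℕ) (S : Fin n × Bool → Fin n × Bool → Prop) (W c : ℕ → ℝ) (lam : ℝ)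
  (F : (Fin n → ℕ) → ℝ), SC N W c → (∀ g ∈ cfs N S, LLs N S c F g = -lam * F g) →
  (∃ g ∈ cfs N S, ∃ k, k < N ∧ mvs N k (k + 1) g ∈ cfs N S ∧ F (mvs N k (k + 1) g) ≠ F g) →
  1 ≤ lam

/-- SB-CONN: connectivity -/
def S_CONN : Prop := ∀ (n N : ℕ) (S : Fin n × Bool → Fin n × Bool → Prop) (F : (Fin n → ℕ) → ℝ),
  (∀ g ∈ cfs N S, ∀ k, k < N → mvs N k (k + 1) g ∈ cfs N S → F (mvs N k (k + 1) g) = F g) →
  ∀ g ∈ cfs N S, ∀ h ∈ cfs N S, F g = F h

/-- SB-LAT: the lattice inequality -/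
def S_LAT : Prop := ∀ (n N : ℕ) (S : Fin n × Bool → Fin n × Bool → Prop) (W c : ℕ → ℝ),
  SC N W c → ∀ F : (Fin n → ℕ) → ℝ, ((cfs N S).card : ℝ) * ∑ g ∈ cfs N S, F g ^ 2 -
    (∑ g ∈ cfs N S, F g) ^ 2 ≤ (cfs N S).card * (1 / 2 * ∑ g ∈ cfs N S, QQs N S c F g)

/-! ### B: the limit -/

/-- SB-RS: Riemann sums -/
def S_RS : Prop := ∀ (n : ℕ) (S : Fin n × Bool → Fin n × Bool → Prop), (∀ u, ¬ S u u) →
  ∀ G : (Fin n → ℝ) → ℝ, Continuous G →
  Tendsto (fun N : ℕ => (∑ g ∈ cfs N S, G (lp (2 * N) g)) / ((2 * N : ℕ) : ℝ) ^ n) atTop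
    (𝓝 (∫ x in OPs S, G x))

/-- SB-ADJ: few placements have labels at neighbouring positions -/
def S_ADJ : Prop := ∀ (n : ℕ) (S : Fin n × Bool → Fin n × Bool → Prop),
  Tendsto (fun N : ℕ => (∑ g ∈ cfs N S, (adjs N g : ℝ)) / ((2 * N : ℕ) : ℝ) ^ n) atTop (𝓝 0)

/-- SB-UPC: the energy of a placement, by the kinds of exchanges -/
def S_UPC : Prop := ∀ (n N : ℕ) (S : Fin n × Bool → Fin n × Bool → Prop) (c : ℕ → ℝ)
  (F : (Fin n → ℕ) → ℝ) (C : ℝ), (∀ k, k + 1 < 2 * N → 0 ≤ c k) →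
  (∀ k, k + 1 < 2 * N → c (2 * N - 2 - k) = c k) → ∀ g ∈ cfs N S,
  (∀ k, k < N → c k * (F (mvs N k (k + 1) g) - F g) ^ 2 ≤ C) → QQs N S c F g ≤
    ∑ a, (if g a + 1 < 2 * N then
      c (g a) * (F (Function.update g a (g a + 1)) - F g) ^ 2 else 0) +
    ∑ a, (if 0 < g a then
      c (g a - 1) * (F (Function.update g a (g a - 1)) - F g) ^ 2 else 0) +
    C * (adjs N g : ℝ)

end Pool.Agent.H756.SB
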