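import Pool.Agent.H756.SB.Stm
import Pool.Agent.U959.OC.Lcv

/-!
# Signed order cones: statements (project SB)
-/

set_option autoImplicit false

namespace Pool.Agent.H756.SB

open MeasureTheory Set Filter Topology
open scoped ENNReal InnerProductSpace
open Pool.Agent.W695.KH (Eu Pot)
open Pool.Agent.R972.OP (WC lp pd)
open Pool.Agent.U959.OC

section

variable {n : ℕ}

/-- signed coordinate -/
def sg (x : Fin n → ℝ) (u : Fin n × Bool) : ℝ := if u.2 then -x u.1 else x u.1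

/-- signed order cone -/
def conP (S : Fin n × Bool → Fin n × Bool → Prop) : Set (Fin n → ℝ) :=
  {x | ∀ u v, S u v → sg x u ≤ sg x v}

/-- signed order cone in Euclidean space -/
def conE (S : Fin n × Bool → Fin n × Bool → Prop) : Set (Eu (Fin n)) :=
  {x | ∀ u v, S u v → sg (fun i => x i) u ≤ sg (fun i => x i) v}

open Classical in
/-- density on the signed order cone -/
noncomputable def wS (h : ℝ → ℝ) (S : Fin n × Bool → Fin n × Bool → Prop) (x : Eu (Fin n)) : ℝ :=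
  if x ∈ conE S then ∏ i, h (x i) else 0

/-- conditional law -/
noncomputable def nus (ρ : ℝ → ℝ) (S : Fin n × Bool → Fin n × Bool → Prop) : Measure (Eu (Fin n)) :=
  ProbabilityTheory.cond (iid n ρ) (conE S)

end

/-- SB-POI: Poincare inequality with the weight of the logistic law on signed order polytopes -/
def S_POI : Prop := ∀ (n : ℕ) (S : Fin n × Bool → Fin n × Bool → Prop), (∀ u, ¬ S u u) →
  ∀ f : (Fin n → ℝ) → ℝ, ContDiff ℝ 1 f →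
  (volume (OPs S)).toReal * (∫ x in OPs S, f x ^ 2) - (∫ x in OPs S, f x) ^ 2 ≤
    (volume (OPs S)).toReal * (1 / 2 * ∫ x in OPs S, Glo f x)

/-- SB-CORE: Poincare inequality for even log-concave densities on signed order cones -/
def S_CORE : Prop := ∀ (ρ : ℝ → ℝ), LCD ρ → (∀ t, ρ (-t) = ρ t) → 0 < ρ 0 ∧ (∀ t, ρ t ≤ ρ 0) ∧
    ∀ (n : ℕ) (S : Fin n × Bool → Fin n × Bool → Prop), (∀ u, ¬ S u u) →
    volume (OPs S) = Pn n ρ (conP S) ∧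
    ∀ (f : (Fin n → ℝ) → ℝ) (B B' : ℝ), ContDiff ℝ 1 f → (∀ x, |f x| ≤ B) → (∀ x, en f x ≤ B') →
    (Pn n ρ (conP S)).toReal * (∫ x in conP S, f x ^ 2 ∂(Pn n ρ)) -
      (∫ x in conP S, f x ∂(Pn n ρ)) ^ 2 ≤
    (Pn n ρ (conP S)).toReal * (1 / ρ 0 ^ 2 * ∫ x in conP S, en f x ∂(Pn n ρ))

/-- SB-APX: approximation by smooth log-concave densities -/
def S_APX : Prop := ∀ (n : ℕ) (ρ : ℝ → ℝ) (S : Fin n × Bool → Fin n × Bool → Prop), LCD ρ →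
  (∀ u, ¬ S u u) → Integrable (wS ρ S) → ∀ ε : ℝ, 0 < ε →
    ∃ U : Eu (Fin n) → ℝ, (∀ c : ℝ, ∃ (b : Eu (Fin n) → Eu (Fin n)) (A : ℝ),
      Pot (fun x => U x + c) b A) ∧ Integrable (fun x => Real.exp (-U x)) ∧
      ∫ x, |Real.exp (-U x) - wS ρ S x| ≤ ε

/-- SB-SYM: functions invariant under permutations and changes of signs have the same means under
all conditionings -/
def S_SYM : Prop := ∀ (n : ℕ) (ρ : ℝ → ℝ) (S : Fin n × Bool → Fin n × Bool → Prop), LCD ρ →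
  (∀ t, ρ (-t) = ρ t) → ∀ H : Eu (Fin n) → ℝ≥0∞, Measurable H →
  (∀ (p : Equiv.Perm (Fin n)) (x : Eu (Fin n)), H (WithLp.toLp 2 fun i => x (p i)) = H x) →
  (∀ (e : Fin n → Bool) (x : Eu (Fin n)),
    H (WithLp.toLp 2 fun i => if e i then -x i else x i) = H x) →
  ∫⁻ x in conE S, H x ∂(iid n ρ) = iid n ρ (conE S) * ∫⁻ x, H x ∂(iid n ρ)

/-- SB-FACTS: probability, Poincare and Cheeger -/
def S_FACTS : Prop := ∀ (n : ℕ) (ρ : ℝ → ℝ) (S : Fin n × Bool → Fin n × Bool → Prop), LCD ρ →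
  (∀ t, ρ (-t) = ρ t) → iid n ρ (conE S) ≠ 0 →
  0 < ρ 0 ∧ (∀ t, ρ t ≤ ρ 0) ∧ IsProbabilityMeasure (nus ρ S) ∧
    (∀ (v : Eu (Fin n) → ℝ) (B L : ℝ), ContDiff ℝ 1 v → (∀ x, |v x| ≤ B) →
      (∀ x, ‖fderiv ℝ v x‖ ≤ L) → (∫ x, v x ^ 2 ∂(nus ρ S)) - (∫ x, v x ∂(nus ρ S)) ^ 2 ≤
        1 / ρ 0 ^ 2 * ∫ x, ‖fderiv ℝ v x‖ ^ 2 ∂(nus ρ S)) ∧
    ∀ A : Set (Eu (Fin n)), nus ρ S A * (1 - nus ρ S A) ≤ ENNReal.ofReal (4 / ρ 0) *
      liminf (fun ε : ℝ => (nus ρ S (Metric.thickening ε A) - nus ρ S A) / ENNReal.ofReal ε)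
        (𝓝[>] 0)

/-- SB-ONE: one dimension -/
def S_ONE : Prop := ∀ ρ : ℝ → ℝ, LCD ρ → (∀ t, ρ (-t) = ρ t) → 0 < ρ 0 → (∀ t, ρ t ≤ ρ 0) →
  MemLp (fun t : ℝ => t ^ 2) 2 (law ρ) ∧ (∫ t, t ∂(law ρ) = 0) ∧
  ProbabilityTheory.variance (fun t : ℝ => t) (law ρ) = ∫ t, t ^ 2 ∂(law ρ) ∧
  1 / (12 * ρ 0 ^ 2) ≤ ∫ t, t ^ 2 ∂(law ρ) ∧ ∫ t, t ^ 2 ∂(law ρ) ≤ 1 / ρ 0 ^ 2 ∧
  (∫ t, t ^ 2 ∂(law ρ)) / (48 * ρ 0 ^ 2) ≤
    ProbabilityTheory.variance (fun t : ℝ => t ^ 2) (law ρ)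

/-- SB-COV: lower bound of the covariance matrix -/
def S_COV : Prop := ∀ (n : ℕ) (ρ : ℝ → ℝ) (S : Fin n × Bool → Fin n × Bool → Prop), 1 ≤ n →
  LCD ρ → (∀ t, ρ (-t) = ρ t) → iid n ρ (conE S) ≠ 0 → ∀ s : ℝ, 0 < s →
  (∀ θ : Eu (Fin n), ProbabilityTheory.evariance (fun x => ⟪θ, x⟫_ℝ) (nus ρ S) ≤
    ENNReal.ofReal (s * ‖θ‖ ^ 2)) →
  ProbabilityTheory.variance (fun t : ℝ => t) (law ρ) ≤ 768 * s

end Pool.Agent.H756.SB
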